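import Pool.Agent.H66.FA.T

/-!
# Row ODE of fab_modules: existence of trajectories
-/

set_option autoImplicit false

open Matrix

namespace Pool.Agent.H46.FAO

open Pool.Agent.H63.Fins MeasureTheory Filter Topology Pool.Agent.H66.FA

/-- a bounded Lipschitz vector field has integral curves on bounded intervals -/
theorem exists_curve {E : Type} [NormedAddCommGroup E] [NormedSpace ℝ E] [CompleteSpace E]
    (X : E → E) (K : NNReal) (hX : LipschitzWith K X) (M : ℝ) (hM : ∀ z, ‖X z‖ ≤ M) (y : E)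
    (T : ℝ) (hT : 0 < T) :
    ∃ γ : ℝ → E, γ 0 = y ∧ ∀ t ∈ Set.Ioo (-2 : ℝ) (T + 1), HasDerivAt γ (X (γ t)) t := by
  have hM0 : 0 ≤ M := (norm_nonneg _).trans (hM y)
  have h0 : (0 : ℝ) ∈ Set.Icc (-2 : ℝ) (T + 1) := ⟨by norm_num, by linarith⟩
  have hpl : IsPicardLindelof (fun _ => X) (tmin := -2) (tmax := T + 1) ⟨0, h0⟩ y
      (⟨M * (T + 3), by positivity⟩ : NNReal) 0 (⟨M, hM0⟩ : NNReal) K := by
    refine ⟨fun t _ => hX.lipschitzOnWith, fun x _ => continuousOn_const,
      fun t _ x _ => hM x, ?_⟩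
    show M * max (T + 1 - 0) (0 - -2) ≤ M * (T + 3) - ((0 : NNReal) : ℝ)
    rw [NNReal.coe_zero]
    have h1 : max (T + 1 - 0) (0 - -2) ≤ T + 3 := max_le (by linarith) (by linarith)
    have h2 := mul_le_mul_of_nonneg_left h1 hM0
    linarith
  obtain ⟨γ, hγ0, hγ⟩ := hpl.exists_eq_forall_mem_Icc_hasDerivWithinAt₀
  refine ⟨γ, hγ0, fun t ht => ?_⟩
  exact (hγ t ⟨ht.1.le, ht.2.le⟩).hasDerivAt (Icc_mem_nhds ht.1 ht.2)

/-- the first cut-off: `0` below `c / 4`, `1` above `c / 2` -/
noncomputable def s1 (c s : ℝ) : ℝ := Real.smoothTransition (4 * s / c - 1)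

/-- the second cut-off: `1` below `2 c`, `0` above `3 c` -/
noncomputable def s2 (c s : ℝ) : ℝ := Real.smoothTransition (3 - s / c)

theorem s1_zero {c s : ℝ} (hc : 0 < c) (h : s ≤ c / 4) : s1 c s = 0 := by
  apply Real.smoothTransition.zero_of_nonpos
  have : 4 * s / c ≤ 1 := by
    rw [div_le_one hc]
    linarith
  linarith

theorem s1_one {c s : ℝ} (hc : 0 < c) (h : c / 2 ≤ s) : s1 c s = 1 := by
  apply Real.smoothTransition.one_of_one_le
  have : 2 ≤ 4 * s / c := by
    rw [le_div_iff₀ hc]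
    linarith
  linarith

theorem s2_one {c : ℝ} (hc : 0 < c) : s2 c c = 1 := by
  apply Real.smoothTransition.one_of_one_le
  rw [div_self hc.ne']
  norm_num

theorem s2_zero {c s : ℝ} (hc : 0 < c) (h : 3 * c ≤ s) : s2 c s = 0 := by
  apply Real.smoothTransition.zero_of_nonpos
  have : 3 ≤ s / c := by
    rw [le_div_iff₀ hc]
    linarith
  linarith

theorem s1_smooth (c : ℝ) : ContDiff ℝ 1 (s1 c) := by
  unfold s1
  have h : ContDiff ℝ 1 Real.smoothTransition := Real.smoothTransition.contDiff (n := 1)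
  exact h.comp (by fun_prop)

theorem s2_smooth (c : ℝ) : ContDiff ℝ 1 (s2 c) := by
  unfold s2
  have h : ContDiff ℝ 1 Real.smoothTransition := Real.smoothTransition.contDiff (n := 1)
  exact h.comp (by fun_prop)

theorem pf_ODE (h1 : T_EUL) (h2 : T_REG) (h3 : T_CPT) : T_ODE := by
  intro n L ξ hL hξ hdL y hy T hT
  obtain ⟨hLc, -, -, -, -, -, hreg⟩ := h2 n L hL
  obtain ⟨⟨a, ha, haL⟩, -⟩ := h3 n L hL
  have hLpos : ∀ z : V n, z ≠ 0 → 0 < L z := fun z hz => (h1 n L hL z hz).2.2.2.1
  have hopen : IsOpen {z : V n | z ≠ 0} := isOpen_ne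
  have hc : 0 < L y := hLpos y hy
  set c : ℝ := L y with hcdef
  -- near zero
  have hnear : ∀ᶠ z in 𝓝 (0 : V n), L z < c / 4 := by
    have h4 : Tendsto L (𝓝 0) (𝓝 (L 0)) := hLc.tendsto 0
    rw [hL.zero] at h4
    exact h4.eventually (gt_mem_nhds (by positivity))
  have hLat : ∀ z : V n, z ≠ 0 → ContDiffAt ℝ 1 L z := fun z hz =>
    (hL.smooth.contDiffAt (hopen.mem_nhds hz)).of_le (by exact_mod_cast le_top)
  have hξat : ∀ z : V n, z ≠ 0 → ContDiffAt ℝ 1 ξ z := fun z hz =>
    (hξ.contDiffAt (hopen.mem_nhds hz)).of_le (by exact_mod_cast le_top)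
  -- the vector field
  set X : V n → V n := fun z => (s1 c (L z) * s2 c (L z)) • ξ z with hX
  have hXs : ContDiff ℝ 1 X := by
    rw [contDiff_iff_contDiffAt]
    intro z
    by_cases hz : z = 0
    · subst hz
      have h5 : X =ᶠ[𝓝 (0 : V n)] fun _ => (0 : V n) := by
        filter_upwards [hnear] with z hz
        rw [hX]
        simp only
        rw [s1_zero hc hz.le, zero_mul, zero_smul]
      exact contDiffAt_const.congr_of_eventuallyEq h5
    · have h5 : ContDiffAt ℝ 1 (fun z => s1 c (L z)) z :=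
        (s1_smooth c).contDiffAt.comp z (hLat z hz)
      have h6 : ContDiffAt ℝ 1 (fun z => s2 c (L z)) z :=
        (s2_smooth c).contDiffAt.comp z (hLat z hz)
      exact (h5.mul h6).smul (hξat z hz)
  have hXc : HasCompactSupport X := by
    refine HasCompactSupport.intro (isCompact_closedBall (0 : V n) (Real.sqrt (3 * c / a))) ?_
    intro z hz
    rw [mem_closedBall_zero_iff, not_le] at hz
    have h5 : 3 * c / a ≤ ‖z‖ ^ 2 := by
      rw [← Real.sqrt_le_sqrt_iff (by positivity), Real.sqrt_sq (norm_nonneg z)]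
      exact hz.le
    have h6 : 3 * c ≤ L z := by
      rw [div_le_iff₀ ha] at h5
      have := haL z
      linarith
    rw [hX]
    simp only
    rw [s2_zero hc h6, mul_zero, zero_smul]
  obtain ⟨K, hK⟩ := hXs.lipschitzWith_of_hasCompactSupport (𝕂 := ℝ) hXc (by norm_num)
  obtain ⟨M, hM⟩ := hXs.continuous.bounded_above_of_compact_support hXc
  obtain ⟨γ, hγ0, hγ⟩ := exists_curve X K hK M hM y T hT
  -- the conserved quantity
  set G : V n → ℝ := fun z => L z * s1 c (L z) with hG
  have hGd : ∀ z : V n, ∃ G' : V n →L[ℝ] ℝ, HasFDerivAt G G' z ∧ G' (X z) = 0 := by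
    intro z
    by_cases hz : z = 0
    · subst hz
      refine ⟨0, ?_, rfl⟩
      have h5 : G =ᶠ[𝓝 (0 : V n)] fun _ => (0 : ℝ) := by
        filter_upwards [hnear] with z hz
        rw [hG]
        simp only
        rw [s1_zero hc hz.le, mul_zero]
      exact (hasFDerivAt_const (0 : ℝ) (0 : V n)).congr_of_eventuallyEq h5
    · have h5 := (hreg z hz).1
      have h6 : HasDerivAt (fun s => s * s1 c s) (deriv (fun s => s * s1 c s) (L z)) (L z) := by
        apply DifferentiableAt.hasDerivAt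
        have h7 : ContDiff ℝ 1 fun s => s * s1 c s := contDiff_id.mul (s1_smooth c)
        exact (h7.differentiable (by norm_num)).differentiableAt
      refine ⟨_, h6.comp_hasFDerivAt z h5, ?_⟩
      have h7 : fderiv ℝ L z (ξ z) = 0 := hdL z hz
      rw [hX]
      simp only [_root_.smul_apply, map_smul, h7, smul_eq_mul, mul_zero]
  have hconst : ∀ t ∈ Set.Icc (-1 : ℝ) T, G (γ t) = G (γ (-1)) := by
    have hder : ∀ t ∈ Set.Icc (-1 : ℝ) T, HasDerivAt (fun t => G (γ t)) 0 t := by
      intro t ht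
      obtain ⟨G', hG', hG0⟩ := hGd (γ t)
      have h5 := hG'.comp_hasDerivAt t (hγ t ⟨by linarith [ht.1], by linarith [ht.2]⟩)
      rw [hG0] at h5
      exact h5
    apply constant_of_has_deriv_right_zero
    · exact fun t ht => (hder t ht).continuousAt.continuousWithinAt
    · exact fun t ht => (hder t ⟨ht.1, ht.2.le⟩).hasDerivWithinAt
  have hGy : G y = c := by
    rw [hG]
    simp only
    rw [s1_one hc (by linarith), mul_one]
  have hLc' : ∀ t ∈ Set.Icc (-1 : ℝ) T, L (γ t) = c := by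
    intro t ht
    have h5 : G (γ t) = c := by
      rw [hconst t ht, ← hconst 0 ⟨by norm_num, hT.le⟩, hγ0, hGy]
    have h6 : L (γ t) * s1 c (L (γ t)) = c := h5
    by_cases h7 : c / 2 ≤ L (γ t)
    · rw [s1_one hc h7, mul_one] at h6
      exact h6
    · exfalso
      rw [not_le] at h7
      have h8 : 0 ≤ s1 c (L (γ t)) := Real.smoothTransition.nonneg _
      have h9 : s1 c (L (γ t)) ≤ 1 := Real.smoothTransition.le_one _
      by_cases h10 : 0 ≤ L (γ t)
      · have := mul_le_mul_of_nonneg_left h9 h10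
        linarith
      · rw [not_le] at h10
        have := mul_nonneg (neg_nonneg.mpr h10.le) h8
        linarith
  refine ⟨γ, hγ0, fun t ht => ?_⟩
  have h5 := hLc' t ⟨ht.1.le, ht.2.le⟩
  refine ⟨?_, ?_⟩
  · intro h6
    rw [h6, hL.zero] at h5
    exact hc.ne h5
  · have h6 := hγ t ⟨by linarith [ht.1], by linarith [ht.2]⟩
    have h7 : X (γ t) = ξ (γ t) := by
      rw [hX]
      simp only
      rw [h5, s1_one hc (by linarith), s2_one hc, mul_one, one_smul]
    rw [h7] at h6
    exact h6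

end Pool.Agent.H46.FAO
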